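import Pool.Agent.TH376.TC.MTQ

/-!
# The Mumford–Tate conjecture and cubic hypersurfaces

Let `E_g` be the hypersurface `g_0 t_0 + ⋯ + g_r t_r = 0` in `𝔸^(n+r+1)`. The homology of a smooth
projective variety `X` is contained, up to a Tate twist, in the part of lowest weight of the homology
of such a hypersurface, compatibly with Hodge structures and Galois actions. So the
Mumford–Tate group and the algebraic monodromy group of `X` are images of those of `E_g`.
-/

set_option autoImplicit false

open CategoryTheory CategoryTheory.Limits AlgebraicGeometry Pool.Agent.TH90.Cub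
  Pool.Agent.TH376.TC

namespace Pool.Agent.Results.MP_c1bb77_ag.CubicHypersurfaces

/-- **Reduction of the Mumford–Tate conjecture to cubic hypersurfaces over `ℚ`.** The following are
equivalent (`Full` and `Forms {1}`):

(0) the Mumford–Tate conjecture: for every number field `k` in `ℂ`, all smooth projective varieties
`X` over `k` and all `a`, the Mumford–Tate group of `H_a(X)` is the identity component of the
algebraic monodromy group;

(1) the same for `k = ℚ`;

(2) for all varieties `X` over `ℚ`, the two groups agree on the parts of lowest weight of the
homology of `X`;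

(3) the same for the hypersurfaces `E_g` over `ℚ`, given by `g_0 t_0 + ⋯ + g_r t_r = 0`, each `g_i`
being one of `x_a x_b - x_c`, `x_a + x_b - x_c`, `x_a - 1`;

(4) the same for at least one complete variety `Y` over `ℚ` which contains `E_g` as an open
subscheme, for each of these hypersurfaces `E_g`.

Moreover, (1), (2), (3) and (4) are equivalent over each number field `k` in `ℂ`, with `x_a - c`, `c`
in `S`, instead of `x_a - 1`, if `S` contains `1` and generates `k`. -/
theorem result {K : Type} [Field K] [CharZero K] [IsAlgClosed K] (T : MTFamily K)
    (hT : T.Known) :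
    (T.Full :: T.rat.Forms {1}).TFAE ∧
      ∀ (k : Type) [Field k] [NumberField k] (σ : k →+* ℂ) (S : Set k),
        Subfield.closure S = ⊤ → (1 : k) ∈ S → ((T.th k σ).Forms S).TFAE :=
  ⟨MTFamily.full_tfae hT, fun k _ _ σ S hS h1 =>
    MTTheory.forms_tfae (hT.props k σ) (hT.known k σ) hS h1⟩

end Pool.Agent.Results.MP_c1bb77_ag.CubicHypersurfaces
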