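import Pool.Agent.TH132.U.MT

/-!
# MP_c1bb77_ag: the Mumford-Tate conjecture for the products of any variety with infinitely many others

Let `W` be a Weil cohomology theory for smooth projective varieties over a field `k` with coefficients
in `K = W.K`, with a functorial Hodge decomposition, such that all sub-Hodge structures have
complements, and let `F` be an extension of `K` such that a group `Γ` acts functorially on the algebras
`F ⊗ H(X)`. In the intended use `k` is a number field with a complex embedding, `W` is the Betti
cohomology with rational coefficients, `F` is the field of `ℓ`-adic numbers and `Γ` is the Galois group.

The Mumford-Tate conjecture in terms of classes: the Tate classes on `X` (the classes of degree `2 j`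
on which a subgroup of finite index of `Γ` acts by `χ ^ j`) are the `F`-linear combinations of the
Hodge classes. If the Galois representations are semisimple, this statement for all powers of `X` is
equivalent to the equality of the Mumford-Tate group (over `F`) with the identity component of the
algebraic monodromy group of the cohomology of `X` (both are determined by their invariants).

Let `X i`, for `i` in an arbitrary (for instance infinite) set, be a family of varieties which is
**independent** (the Hodge classes on the products of members with index in `T` by the products of
members with index not in `T` split), and such that the Mumford-Tate conjecture holds for all products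
of members; for instance, elliptic curves over `k` which are pairwise non-isogenous over the
algebraic closure.

Then for **every** variety `Z` (such that the Galois action on the cohomology of its powers is
semisimple) there is a **finite** set `E₀` of indices such that for all disjoint sets `T` and `E` of
indices with `T` disjoint from `E₀`: the Mumford-Tate conjecture holds for **all products** of copies
of `Z` and of the `X i`, `i ∈ T ∪ E`, if and only if it holds for all products of copies of `Z` and of
the `X i`, `i ∈ E`.

For `E = ∅`: if the Mumford-Tate conjecture holds for the powers of `Z`, then it holds for all
products of copies of `Z` and of elliptic curves outside finitely many isogeny classes. For `E = E₀`: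
the conjecture for all products of copies of `Z` and of arbitrary elliptic curves reduces to `Z` and
finitely many elliptic curves.
-/

set_option autoImplicit false

open CategoryTheory AlgebraicGeometry

universe u w

namespace Pool.Agent.Results.MP_c1bb77_ag.FinitelyManyFactors

open Pool.Agent.H914 VarClass Obj WeilCohomology Pool.Agent.TH132.U

/-- **The Mumford-Tate conjecture for the products of any variety and the members of an independent
family for which it is known reduces to finitely many members.** -/
theorem result {k : Type u} [Field k] {𝒱 : VarClass k} {ops : CycleOps 𝒱}
    {W : WeilCohomology.{u, 0} ops} [Algebra W.K ℂ] (𝓗 : HodgeTheory W)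
    {F : Type} [Field F] [Algebra W.K F] {Γ : Type w} [Group Γ] {χ : Γ →* Fˣ}
    (𝓖 : GaloisTheory W F Γ χ) {ι : Type} (X : ι → 𝒱.Obj) (hX : 𝓗.Independent X)
    (hXs : 𝓖.Semisimple (IsProd X Set.univ)) (hXm : MumfordTate 𝓗 𝓖 (IsProd X Set.univ))
    (Z : 𝒱.Obj) (hZ : 𝓖.Semisimple (IsProd (fun _ : Unit => Z) Set.univ)) :
    ∃ E₀ : Finset ι, ∀ T E : Set ι, Disjoint T E₀ → Disjoint T E →
      (MumfordTate 𝓗 𝓖 (IsProd (adjoin Z X) (indices (T ∪ E))) ↔
        MumfordTate 𝓗 𝓖 (IsProd (adjoin Z X) (indices E))) :=
  mt_uniform 𝓗 𝓖 X hX hXs hXm Z hZ

end Pool.Agent.Results.MP_c1bb77_ag.FinitelyManyFactors
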