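import Mathlib
import Pool.Agent.TH118.TP.MT

/-!
# The Mumford-Tate conjecture for abelian varieties with a good element of inertia, and products

Let `A` and `B` be abelian varieties over a number field `k` embedded in the complex numbers,
`W = H_1(A, ℚ)`, `W' = H_1(B, ℚ)`, `T`, `T'` the tangent spaces at the origin, `per`, `per'` the
inclusions of `W`, `W'` in `T`, `T'`; `V`, `N` are the rational Tate modules, `comp`, `comp'` the
comparison maps `W → V`, `W' → N`, and `ρ`, `τ` the actions of the Galois group `Γ` of `k`, `χ` the
cyclotomic character; `ω₀` is the Riemann form of a polarization of `A` and `ω` the Weil pairing.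

A rational form on `W × W'` in `2 m` variables is a Hodge class (in `(H^1(A × B))^{⊗ 2 m}(m)`) if it
extends to a real form on `T × T'` which is invariant under the complex numbers of absolute value one.
`MumfordTate per' comp' τ χ` says that all Tate classes (the forms on `N` in `2 m` variables with
`φ(g v) = χ(g) ^ m φ(v)` for `g` in a subgroup of finite index) are `ℚ_ℓ`-linear combinations of
Hodge classes.  Together with the theorem of Deligne (Hodge classes are Tate classes), and since the
Mumford-Tate group and the `ℓ`-adic monodromy group are reductive (Faltings) and so determined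
by these invariants, this is the equality of the groups `G_ℓ° = MT(H^1)` over `ℚ_ℓ`, and it implies the
equality for all cohomology groups `H^i` of all the powers of the variety.

Hypotheses.

* `hirr`: the representation on `V` tensored with the algebraic closure of `ℚ_ℓ` is irreducible under
  all subgroups of finite index.  By the theorem of Faltings this means that all endomorphisms of
  `A` over the algebraic closure of `k` are integers.
* `γ` is an element of the Galois group which acts trivially on `N` and on the roots of unity (for
  example an element of the inertia group of a place prime to `ℓ` where `B` has good reduction), and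
  which acts on `V` (`GoodElement`)
  - by a unipotent map different from the identity, with `(γ - 1) ^ 2 = 0` and `γ - 1` of rank at most
    two (the reduction of `A` at the place is semiabelian, of toric rank one or two),
  - or with finite order, and for `a = 1` or `a = -1` the eigenvalues different from `a` are
    simple, and their number `c`, which is not zero, and the dimension `d` of the eigenspace for `a`
    satisfy `c ^ 2 < 2 d`,
  - or with finite order and eigenvalues which split in an isolated way (`IsolatedFinite`).
  In the cases of finite order (potentially good reduction) it is also assumed that there is an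
  element of the Galois group with two eigenvalues on `V` whose quotient is not a root of unity.
* `hB`: the Mumford-Tate conjecture for `B`, for instance `B = 0`, or `B` with complex
  multiplication, or a product of elliptic curves, or again a product of varieties like `A`.

Theorem.  The Mumford-Tate conjecture holds for `A × B`, so for all `H^i(A ^ n × B ^ m)`.

For `B = 0` this is the Mumford-Tate conjecture for `A`, with Mumford-Tate group `GSp(W, ω₀)`; there is no
condition on the dimension of `A`.  An example: `A` is the Jacobian of a curve of
genus `g`, with endomorphism ring `ℤ`, which at a place `v`, not dividing `ℓ`, of residue characteristic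
prime to `2 (2 m + 1)`, has a regular model whose special fibre has exactly one singular point, of type
`A_{2m}` (`y ^ 2 = x ^ (2 m + 1)`), `m < g`: a generator of tame inertia has the eigenvalue `1` and
the `2 m` simple eigenvalues `-ζ`, `ζ ≠ 1` a root of unity of order dividing `2 m + 1`.

If the conjecture is known for `A` and `B` then for `A × B` it also follows from a theorem of Vasiu
and Commelin; here it comes out of the proof.

The proof.  By `MP_90d181_ag.ProductsWithPowers` the components of a Tate class on `A × B` (according to
the set of the variables from `V`) are sums of products of values of `ω` and of Tate classes of `B`,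
which are combinations of Hodge classes by `hB`.
-/

namespace Pool.Agent.Results.MP_c1bb77_ag.GoodElementProducts

open Pool.Agent.H204R3.SP Pool.Agent.H204R3.GP Pool.Agent.TH118.MT Pool.Agent.TH118.TP

theorem result (ℓ : ℕ) [Fact ℓ.Prime]
    -- the homology and the tangent spaces of `A` and `B`
    {W T W' T' : Type} [AddCommGroup W] [Module ℚ W] [AddCommGroup T] [Module ℂ T]
    [AddCommGroup W'] [Module ℚ W'] [AddCommGroup T'] [Module ℂ T']
    (per : W →+ T) (per' : W' →+ T')
    -- the rational Tate modules of `A` and `B` with the action of the Galois group
    {V N : Type} [AddCommGroup V] [Module ℚ_[ℓ] V] [FiniteDimensional ℚ_[ℓ] V]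
    [AddCommGroup N] [Module ℚ_[ℓ] N] [FiniteDimensional ℚ_[ℓ] N] {Γ : Type} [Group Γ]
    (ρ : Representation ℚ_[ℓ] Γ V) (τ : Representation ℚ_[ℓ] Γ N) (χ : Γ →* ℚ_[ℓ])
    (comp : W →+ V) (comp' : W' →+ N)
    -- the polarization and the Weil pairing
    (ω : V →ₗ[ℚ_[ℓ]] V →ₗ[ℚ_[ℓ]] ℚ_[ℓ]) (halt : ∀ v, ω v v = 0)
    (hnd : ∀ u, (∀ v, ω u v = 0) → u = 0)
    (hω : ∀ g x y, ω (ρ g x) (ρ g y) = χ g * ω x y)
    (ω₀ : W →ₗ[ℚ] W →ₗ[ℚ] ℚ) (hω₀ : IsHodgeBilinear per ω₀)
    (hωω : ∀ x y, ω (comp x) (comp y) = ((ω₀ x y : ℚ) : ℚ_[ℓ]))
    -- irreducibility
    (hirr : StronglyIrr (bcr ρ (AlgebraicClosure ℚ_[ℓ])))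
    -- the element of the inertia group
    (γ : Γ) (hχ : χ γ = 1) (hτ : τ γ = 1)
    (hγ : GoodElement (bcr ρ (AlgebraicClosure ℚ_[ℓ])) γ)
    -- the Mumford-Tate conjecture for `B`
    (hB : MumfordTate per' comp' τ χ) :
    MumfordTate (per.prodMap per') (comp.prodMap comp') (sumRep ρ τ) χ :=
  mt_product (Ω := AlgebraicClosure ℚ_[ℓ]) halt hnd hω hω₀ hωω hirr hχ hτ hγ hB

end Pool.Agent.Results.MP_c1bb77_ag.GoodElementProducts
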